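import Pool.Agent.H55.BQ.Targets
import Pool.Agent.H55.BPL.ANG

/-!
Row HC of bpq_modules (helper20): paths in a half plane with interleaving ends meet, discrete
version.
-/

set_option autoImplicit false

open Finset

namespace Pool.Agent.H20.BPQ

open Pool.Agent.H55.BP Pool.Agent.H55.BQ

/-- the argument of a quotient of two neighbours in the closed upper half plane -/
theorem hc_arg_div {z w : ℂ} (hz : z ≠ 0) (hw : w ≠ 0) (hzi : 0 ≤ z.im) (hwi : 0 ≤ w.im)
    (h : ‖z / w - 1‖ < 1 / 2) : Complex.arg (z / w) = Complex.arg z - Complex.arg w := by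
  have h1 : 0 < (z / w).re := by
    have h1 := (abs_le.1 (Complex.abs_re_le_norm (z / w - 1))).1
    have h2 : (z / w - 1).re = (z / w).re - 1 := by simp
    linarith
  have h2 := abs_lt.1 (Complex.abs_arg_lt_pi_div_two_iff.2 (Or.inl h1))
  have h3 : 0 ≤ Complex.arg z := Complex.arg_nonneg_iff.2 hzi
  have h4 : 0 ≤ Complex.arg w := Complex.arg_nonneg_iff.2 hwi
  have h5 := Complex.arg_le_pi z
  have h6 := Complex.arg_le_pi w
  have h7 : ((Complex.arg (z / w) : ℝ) : Real.Angle) =
      ((Complex.arg z - Complex.arg w : ℝ) : Real.Angle) := by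
    rw [Complex.arg_div_coe_angle hz hw, Real.Angle.coe_sub]
  obtain ⟨k, hk⟩ := Real.Angle.angle_eq_iff_two_pi_dvd_sub.1 h7
  have hpi := Real.pi_pos
  have hk1 : (k : ℝ) < 1 := by
    by_contra hc
    rw [not_lt] at hc
    nlinarith
  have hk2 : (-1 : ℝ) < k := by
    by_contra hc
    rw [not_lt] at hc
    nlinarith
  have hk3 : k = 0 := by
    have h8 : k < 1 := by exact_mod_cast hk1
    have h9 : -1 < k := by exact_mod_cast hk2
    omega
  rw [hk3] at hk
  push_cast at hk
  linarith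

theorem hc_tele (z : ℕ → ℂ) (N : ℕ) (h0 : ∀ r, z r ≠ 0) (hi : ∀ r, 0 ≤ (z r).im)
    (h1 : ∀ r, ‖z (r + 1) / z r - 1‖ < 1 / 2) :
    ∑ r ∈ range N, Complex.arg (z (r + 1) / z r) = Complex.arg (z N) - Complex.arg (z 0) := by
  rw [sum_congr rfl fun r _ => hc_arg_div (h0 (r + 1)) (h0 r) (hi (r + 1)) (hi r) (h1 r),
    sum_range_sub fun r => Complex.arg (z r)]

theorem hc_key {x y : ℂ} (h : 2 * ‖y - x‖ < ‖x‖) : ‖y / x - 1‖ < 1 / 2 := by
  have hx0 : x ≠ 0 := by
    rintro rfl
    rw [norm_zero] at h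
    linarith [norm_nonneg (y - 0)]
  have : y / x - 1 = (y - x) / x := by field_simp
  rw [this, norm_div, div_lt_iff₀ (norm_pos_iff.2 hx0)]
  linarith

theorem hc_real {x : ℝ} (hx : x ≠ 0) :
    (x < 0 ∧ Complex.arg (x : ℂ) = Real.pi ∧ Complex.arg ((-x : ℝ) : ℂ) = 0) ∨
    (0 < x ∧ Complex.arg (x : ℂ) = 0 ∧ Complex.arg ((-x : ℝ) : ℂ) = Real.pi) := by
  rcases lt_or_gt_of_ne hx with h | h
  · left
    exact ⟨h, Complex.arg_ofReal_of_neg h, Complex.arg_ofReal_of_nonneg (by linarith)⟩
  · right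
    exact ⟨h, Complex.arg_ofReal_of_nonneg h.le, Complex.arg_ofReal_of_neg (by linarith)⟩

/-- the upper half plane, both paths are not constant -/
theorem hc_up (K L : ℕ) (w w' : ℕ → ℂ) (a b c d : ℝ) (ha : w 0 = a) (hb : w K = b)
    (hc : w' 0 = c) (hd : w' L = d) (hw : ∀ k ≤ K, 0 ≤ (w k).im) (hw' : ∀ k ≤ L, 0 ≤ (w' k).im)
    (h1 : ∀ k < K, ∀ l ≤ L, 2 * ‖w (k + 1) - w k‖ < ‖w k - w' l‖)
    (h2 : ∀ k ≤ K, ∀ l < L, 2 * ‖w' (l + 1) - w' l‖ < ‖w k - w' l‖) (hK : 0 < K) (hL : 0 < L) :
    ilv a b c d = false := by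
  have hne : ∀ k ≤ K, ∀ l ≤ L, w k - w' l ≠ 0 := by
    intro k hk l hl h
    rcases lt_or_eq_of_le hk with hk | hk
    · have := h1 k hk l hl
      rw [h, norm_zero] at this
      linarith [norm_nonneg (w (k + 1) - w k)]
    · have h3 := h1 (k - 1) (by omega) l hl
      have h4 : k - 1 + 1 = k := by omega
      rw [h4] at h3
      have h5 : w k = w' l := sub_eq_zero.1 h
      rw [← h5, ← norm_neg (w (k - 1) - w k), neg_sub] at h3
      linarith [norm_nonneg (w k - w (k - 1))]
  let G : ℕ → ℕ → ℂ := fun r s => w (min r K) - w' (min s L)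
  have g0 : ∀ r s, G r s ≠ 0 := fun r s => hne _ (min_le_right _ _) _ (min_le_right _ _)
  have g1 : ∀ r s, ‖G (r + 1) s / G r s - 1‖ < 1 / 2 := by
    intro r s
    by_cases hr : r < K
    · refine hc_key ?_
      change 2 * ‖w (min (r + 1) K) - w' (min s L) - (w (min r K) - w' (min s L))‖ <
        ‖w (min r K) - w' (min s L)‖
      rw [sub_sub_sub_cancel_right, min_eq_left (by omega : r + 1 ≤ K), min_eq_left hr.le]
      exact h1 r hr _ (min_le_right _ _)
    · have h3 : G (r + 1) s = G r s := by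
        change w (min (r + 1) K) - w' (min s L) = w (min r K) - w' (min s L)
        rw [min_eq_right (by omega : K ≤ r + 1), min_eq_right (by omega : K ≤ r)]
      rw [h3, div_self (g0 r s), sub_self, norm_zero]
      norm_num
  have g2 : ∀ r s, ‖G r (s + 1) / G r s - 1‖ < 1 / 2 := by
    intro r s
    by_cases hs : s < L
    · refine hc_key ?_
      change 2 * ‖w (min r K) - w' (min (s + 1) L) - (w (min r K) - w' (min s L))‖ <
        ‖w (min r K) - w' (min s L)‖
      rw [sub_sub_sub_cancel_left, min_eq_left (by omega : s + 1 ≤ L), min_eq_left hs.le,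
        norm_sub_rev]
      exact h2 _ (min_le_right _ _) s hs
    · have h3 : G r (s + 1) = G r s := by
        change w (min r K) - w' (min (s + 1) L) = w (min r K) - w' (min s L)
        rw [min_eq_right (by omega : L ≤ s + 1), min_eq_right (by omega : L ≤ s)]
      rw [h3, div_self (g0 r s), sub_self, norm_zero]
      norm_num
  set N := max K L with hN
  have hgrid := Pool.Agent.H55.BPL.ANG.grid G N g0 g1 g2
  have e0K : min 0 K = 0 := Nat.zero_min K
  have e0L : min 0 L = 0 := Nat.zero_min L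
  have eNK : min N K = K := min_eq_right (le_max_left K L)
  have eNL : min N L = L := min_eq_right (le_max_right K L)
  -- the four sides
  have s1 : ∑ r ∈ range N, Complex.arg (G (r + 1) N / G r N) =
      Complex.arg ((b - d : ℝ) : ℂ) - Complex.arg ((a - d : ℝ) : ℂ) := by
    rw [hc_tele (fun r => G r N) N (fun r => g0 r N) ?_ (fun r => g1 r N)]
    · change Complex.arg (w (min N K) - w' (min N L)) - Complex.arg (w (min 0 K) - w' (min N L)) = _
      rw [eNK, eNL, e0K, ha, hb, hd, Complex.ofReal_sub, Complex.ofReal_sub]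
    · intro r
      change 0 ≤ (w (min r K) - w' (min N L)).im
      rw [eNL, hd, Complex.sub_im, Complex.ofReal_im, sub_zero]
      exact hw _ (min_le_right _ _)
  have s2 : ∑ r ∈ range N, Complex.arg (G (r + 1) 0 / G r 0) =
      Complex.arg ((b - c : ℝ) : ℂ) - Complex.arg ((a - c : ℝ) : ℂ) := by
    rw [hc_tele (fun r => G r 0) N (fun r => g0 r 0) ?_ (fun r => g1 r 0)]
    · change Complex.arg (w (min N K) - w' (min 0 L)) - Complex.arg (w (min 0 K) - w' (min 0 L)) = _
      rw [eNK, e0L, e0K, ha, hb, hc, Complex.ofReal_sub, Complex.ofReal_sub]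
    · intro r
      change 0 ≤ (w (min r K) - w' (min 0 L)).im
      rw [e0L, hc, Complex.sub_im, Complex.ofReal_im, sub_zero]
      exact hw _ (min_le_right _ _)
  have hq : ∀ r s, G r (s + 1) / G r s = (-G r (s + 1)) / (-G r s) := fun r s =>
    (neg_div_neg_eq _ _).symm
  have s3 : ∑ s ∈ range N, Complex.arg (G N (s + 1) / G N s) =
      Complex.arg ((d - b : ℝ) : ℂ) - Complex.arg ((c - b : ℝ) : ℂ) := by
    rw [sum_congr rfl fun s _ => by rw [hq N s]]
    rw [hc_tele (fun s => -G N s) N (fun s => neg_ne_zero.2 (g0 N s)) ?_ (fun s => ?_)]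
    · change Complex.arg (-(w (min N K) - w' (min N L))) -
        Complex.arg (-(w (min N K) - w' (min 0 L))) = _
      rw [eNK, e0L, eNL, hb, hc, hd, Complex.ofReal_sub, Complex.ofReal_sub, neg_sub, neg_sub]
    · intro s
      change 0 ≤ (-(w (min N K) - w' (min s L))).im
      rw [eNK, hb, neg_sub, Complex.sub_im, Complex.ofReal_im, sub_zero]
      exact hw' _ (min_le_right _ _)
    · rw [← hq]
      exact g2 N s
  have s4 : ∑ s ∈ range N, Complex.arg (G 0 (s + 1) / G 0 s) =
      Complex.arg ((d - a : ℝ) : ℂ) - Complex.arg ((c - a : ℝ) : ℂ) := by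
    rw [sum_congr rfl fun s _ => by rw [hq 0 s]]
    rw [hc_tele (fun s => -G 0 s) N (fun s => neg_ne_zero.2 (g0 0 s)) ?_ (fun s => ?_)]
    · change Complex.arg (-(w (min 0 K) - w' (min N L))) -
        Complex.arg (-(w (min 0 K) - w' (min 0 L))) = _
      rw [e0K, e0L, eNL, ha, hc, hd, Complex.ofReal_sub, Complex.ofReal_sub, neg_sub, neg_sub]
    · intro s
      change 0 ≤ (-(w (min 0 K) - w' (min s L))).im
      rw [e0K, ha, neg_sub, Complex.sub_im, Complex.ofReal_im, sub_zero]
      exact hw' _ (min_le_right _ _)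
    · rw [← hq]
      exact g2 0 s
  rw [s1, s2, s3, s4] at hgrid
  have nbd : b - d ≠ 0 := by
    have := hne K le_rfl L le_rfl
    rw [hb, hd, ← Complex.ofReal_sub] at this
    exact fun h => this (by rw [h, Complex.ofReal_zero])
  have nad : a - d ≠ 0 := by
    have := hne 0 (Nat.zero_le _) L le_rfl
    rw [ha, hd, ← Complex.ofReal_sub] at this
    exact fun h => this (by rw [h, Complex.ofReal_zero])
  have nbc : b - c ≠ 0 := by
    have := hne K le_rfl 0 (Nat.zero_le _)
    rw [hb, hc, ← Complex.ofReal_sub] at this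
    exact fun h => this (by rw [h, Complex.ofReal_zero])
  have nac : a - c ≠ 0 := by
    have := hne 0 (Nat.zero_le _) 0 (Nat.zero_le _)
    rw [ha, hc, ← Complex.ofReal_sub] at this
    exact fun h => this (by rw [h, Complex.ofReal_zero])
  have f1 : d - b = -(b - d) := by ring
  have f2 : c - b = -(b - c) := by ring
  have f3 : d - a = -(a - d) := by ring
  have f4 : c - a = -(a - c) := by ring
  rw [f1, f2, f3, f4] at hgrid
  have hpi := Real.pi_pos
  unfold ilv
  rcases hc_real nbd with ⟨p1, q1, r1⟩ | ⟨p1, q1, r1⟩ <;>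
  rcases hc_real nad with ⟨p2, q2, r2⟩ | ⟨p2, q2, r2⟩ <;>
  rcases hc_real nbc with ⟨p3, q3, r3⟩ | ⟨p3, q3, r3⟩ <;>
  rcases hc_real nac with ⟨p4, q4, r4⟩ | ⟨p4, q4, r4⟩ <;>
  rw [q1, q2, q3, q4, r1, r2, r3, r4] at hgrid <;>
  first
  | (exfalso; linarith)
  | (have t1 : (d < b) ↔ (0 < b - d) := sub_pos.symm
     have t2 : (d < a) ↔ (0 < a - d) := sub_pos.symm
     have t3 : (c < b) ↔ (0 < b - c) := sub_pos.symm
     have t4 : (c < a) ↔ (0 < a - c) := sub_pos.symm
     simp [t1, t2, t3, t4, p1, p2, p3, p4, p1.le, p2.le, p3.le, p4.le, not_lt.2 p1.le,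
       not_lt.2 p2.le, not_lt.2 p3.le, not_lt.2 p4.le, -sub_pos, -sub_nonneg])

theorem pf_HC : T_HC := by
  intro K L w w' σ a b c d ha hb hc hd hw hw' h1 h2
  rcases Nat.eq_zero_or_pos K with hK | hK
  · subst hK
    have hab : a = b := by
      rw [ha] at hb
      exact_mod_cast hb
    subst hab
    unfold ilv
    exact Bool.xor_self _
  rcases Nat.eq_zero_or_pos L with hL | hL
  · subst hL
    have hcd : c = d := by
      rw [hc] at hd
      exact_mod_cast hd
    subst hcd
    unfold ilv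
    rw [Bool.xor_self, Bool.xor_self, Bool.xor_self]
  cases σ with
  | true =>
    exact hc_up K L w w' a b c d ha hb hc hd (fun k hk => by simpa using hw k hk)
      (fun k hk => by simpa using hw' k hk) h1 h2 hK hL
  | false =>
    have hw1 : ∀ k ≤ K, (w k).im ≤ 0 := fun k hk => by simpa using hw k hk
    have hw1' : ∀ k ≤ L, (w' k).im ≤ 0 := fun k hk => by simpa using hw' k hk
    refine hc_up K L (fun k => (starRingEnd ℂ) (w k)) (fun k => (starRingEnd ℂ) (w' k)) a b c d
      ?_ ?_ ?_ ?_ ?_ ?_ ?_ ?_ hK hL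
    · change (starRingEnd ℂ) (w 0) = a
      rw [ha, Complex.conj_ofReal]
    · change (starRingEnd ℂ) (w K) = b
      rw [hb, Complex.conj_ofReal]
    · change (starRingEnd ℂ) (w' 0) = c
      rw [hc, Complex.conj_ofReal]
    · change (starRingEnd ℂ) (w' L) = d
      rw [hd, Complex.conj_ofReal]
    · intro k hk
      change 0 ≤ ((starRingEnd ℂ) (w k)).im
      rw [Complex.conj_im]
      linarith [hw1 k hk]
    · intro k hk
      change 0 ≤ ((starRingEnd ℂ) (w' k)).im
      rw [Complex.conj_im]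
      linarith [hw1' k hk]
    · intro k hk l hl
      change 2 * ‖(starRingEnd ℂ) (w (k + 1)) - (starRingEnd ℂ) (w k)‖ <
        ‖(starRingEnd ℂ) (w k) - (starRingEnd ℂ) (w' l)‖
      rw [← map_sub, ← map_sub, RCLike.norm_conj, RCLike.norm_conj]
      exact h1 k hk l hl
    · intro k hk l hl
      change 2 * ‖(starRingEnd ℂ) (w' (l + 1)) - (starRingEnd ℂ) (w' l)‖ <
        ‖(starRingEnd ℂ) (w k) - (starRingEnd ℂ) (w' l)‖
      rw [← map_sub, ← map_sub, RCLike.norm_conj, RCLike.norm_conj]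
      exact h2 k hk l hl

end Pool.Agent.H20.BPQ
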