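import Pool.Agent.H55.BQ.Targets
import Pool.Agent.H4.BPL.PRM

/-!
Row PR2 of bpq_modules (helper20): the drawings of a template with crossings.
-/

set_option autoImplicit false

open Finset

namespace Pool.Agent.H20.BPQ

open Pool.Agent.H55.BP Pool.Agent.H55.BQ
open Pool.Agent.H4.BPL (cp cps ori_swap ori_rev ori_bb_pos ori_bb_neg ori_bw_pos ori_bw_neg ori_same
  pnt st_nonneg st_lt st_mono pr bad_form)

section template

variable {n p : ℕ} [NeZero p] (T : Tmpl n p) (m : ℕ)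

variable {T} (hT : OkT T)
include hT

theorem pr2_inj : Function.Injective (pnt T m) := by
  have hwb : ∀ i j, pnt T m (Sum.inl i) ≠ pnt T m (Sum.inr j) := by
    intro i j h
    have h1 := congrArg Complex.im h
    have h2 : ((T.w i).2 : ℝ) = ((T.b (ty p j.val)).2 : ℝ) := h1
    exact hT.wb i (ty p j.val) (by exact_mod_cast h2)
  rintro (i | j) (i' | j') h
  · by_contra hne
    have hne' : i ≠ i' := fun hh => hne (by rw [hh])
    apply hT.ww i i' hne'
    have h1 : ((T.w i).1 : ℝ) = ((T.w i').1 : ℝ) := congrArg Complex.re h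
    have h2 : ((T.w i).2 : ℝ) = ((T.w i').2 : ℝ) := congrArg Complex.im h
    exact Prod.ext (by exact_mod_cast h1) (by exact_mod_cast h2)
  · exact absurd h (hwb i j')
  · exact absurd h.symm (hwb i' j)
  · have h1 : ((T.b (ty p j.val)).1 : ℝ) + (j.val : ℝ) / m =
        ((T.b (ty p j'.val)).1 : ℝ) + (j'.val : ℝ) / m := congrArg Complex.re h
    have h2 : ((T.b (ty p j.val)).2 : ℝ) = ((T.b (ty p j'.val)).2 : ℝ) :=
      congrArg Complex.im h
    have a1 := st_nonneg m j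
    have a2 := st_nonneg m j'
    have a3 := st_lt m j
    have a4 := st_lt m j'
    by_cases hk : ty p j.val = ty p j'.val
    · rw [hk] at h1
      have h3 : (j.val : ℝ) / m = (j'.val : ℝ) / m := by linarith
      rcases lt_trichotomy j j' with h4 | h4 | h4
      · exact absurd h3 (st_mono m h4).ne
      · rw [h4]
      · exact absurd h3 (st_mono m h4).ne'
    · exfalso
      rcases hT.bb _ _ hk with h3 | h3 | h3
      · exact h3 (by exact_mod_cast h2)
      · have h4 : ((T.b (ty p j.val)).1 : ℝ) + 1 < ((T.b (ty p j'.val)).1 : ℝ) := by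
          exact_mod_cast h3
        linarith
      · have h4 : ((T.b (ty p j'.val)).1 : ℝ) + 1 < ((T.b (ty p j.val)).1 : ℝ) := by
          exact_mod_cast h3
        linarith

theorem pr2_beta (i : Fin n) (k : Fin p) : ((T.b k).2 : ℝ) - (T.w i).2 ≠ 0 := by
  intro h
  apply hT.wb i k
  have h1 : ((T.w i).2 : ℝ) = (T.b k).2 := by linarith
  exact_mod_cast h1

theorem pr2_ori (i : Fin n) (j : Fin m) (hN : T.N (ty p j.val) i = true)
    (x : Fin n ⊕ Fin m) (h1 : x ≠ Sum.inl i) (h2 : x ≠ Sum.inr j) :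
    ori (pnt T m (Sum.inl i)) (pnt T m (Sum.inr j)) (pnt T m x) ≠ 0 := by
  have a1 := st_nonneg m j
  have a3 := (st_lt m j).le
  rcases x with i' | j'
  · have hne : i ≠ i' := fun h => h1 (by rw [h])
    rcases hT.ow _ i i' hN hne with h | h
    · exact (ori_bw_pos h a1 a3).ne'
    · exact (ori_bw_neg h a1 a3).ne
  · have hne : j ≠ j' := fun h => h2 (by rw [h])
    have a2 := st_nonneg m j'
    have a4 := (st_lt m j').le
    by_cases hk : ty p j.val = ty p j'.val
    · have h3 : ori (pnt T m (Sum.inl i)) (pnt T m (Sum.inr j)) (pnt T m (Sum.inr j')) =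
          (((T.b (ty p j.val)).2 : ℝ) - (T.w i).2) * ((j.val : ℝ) / m - (j'.val : ℝ) / m) := by
        rw [← ori_same]
        show ori _ _ (cps (T.b (ty p j'.val)) _) = _
        rw [← hk]
        rfl
      rw [h3]
      refine mul_ne_zero (pr2_beta hT i _) ?_
      rcases lt_trichotomy j j' with h4 | h4 | h4
      · have := st_mono m h4
        exact (by linarith : (j.val : ℝ) / m - (j'.val : ℝ) / m < 0).ne
      · exact absurd h4 hne
      · have := st_mono m h4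
        exact (by linarith : 0 < (j.val : ℝ) / m - (j'.val : ℝ) / m).ne'
    · rcases hT.ob _ _ i hN hk with h | h
      · exact (ori_bb_pos h a1 a3 a2 a4).ne'
      · exact (ori_bb_neg h a1 a3 a2 a4).ne

/-- the case of different types -/
theorem pr2_diff {i i' : Fin n} {j j' : Fin m} 
    (hS : ¬ Sep (pnt T m (Sum.inl i)) (pnt T m (Sum.inr j)) (pnt T m (Sum.inl i'))
      (pnt T m (Sum.inr j'))) : sepT T (ty p j.val) (ty p j'.val) i i' = false := by
  have a1 := st_nonneg m j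
  have a2 := st_nonneg m j'
  have a3 := (st_lt m j).le
  have a4 := (st_lt m j').le
  unfold sepT
  rw [decide_eq_false_iff_not]
  intro h
  apply hS
  rcases h with h | h | h | h
  · exact Or.inl ⟨ori_bw_pos h.1 a1 a3, ori_bb_pos h.2 a1 a3 a2 a4⟩
  · exact Or.inr (Or.inl ⟨ori_bw_neg h.1 a1 a3, ori_bb_neg h.2 a1 a3 a2 a4⟩)
  · exact Or.inr (Or.inr (Or.inl ⟨ori_bw_pos h.1 a2 a4, ori_bb_pos h.2 a2 a4 a1 a3⟩))
  · exact Or.inr (Or.inr (Or.inr ⟨ori_bw_neg h.1 a2 a4, ori_bb_neg h.2 a2 a4 a1 a3⟩))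

/-- the main case -/
theorem pr2_main {i i' : Fin n} {j j' : Fin m} (hii : i ≠ i') (hjj : j < j')
    (hN : T.N (ty p j.val) i = true) (hk : ty p j.val = ty p j'.val)
    (hS : ¬ Sep (pnt T m (Sum.inl i)) (pnt T m (Sum.inr j)) (pnt T m (Sum.inl i'))
      (pnt T m (Sum.inr j'))) :
    (0 < ((T.b (ty p j.val)).2 : ℝ) - (T.w i).2 ∧ 0 < ((T.b (ty p j.val)).2 : ℝ) - (T.w i').2 ∧
      0 < ori (pnt T m (Sum.inl i)) (pnt T m (Sum.inr j)) (pnt T m (Sum.inl i'))) ∨
    (((T.b (ty p j.val)).2 : ℝ) - (T.w i).2 < 0 ∧ ((T.b (ty p j.val)).2 : ℝ) - (T.w i').2 < 0 ∧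
      ori (pnt T m (Sum.inl i)) (pnt T m (Sum.inr j)) (pnt T m (Sum.inl i')) < 0) := by
  have a1 := st_nonneg m j
  have a2 := st_nonneg m j'
  have a3 := (st_lt m j).le
  have a4 := (st_lt m j').le
  set k := ty p j.val with hkdef
  set s : ℝ := (j.val : ℝ) / m with hs
  set t : ℝ := (j'.val : ℝ) / m with ht
  have hst : s < t := st_mono m hjj
  set β : ℝ := ((T.b k).2 : ℝ) - (T.w i).2 with hβ
  set β' : ℝ := ((T.b k).2 : ℝ) - (T.w i').2 with hβ'
  have hβ0 : β ≠ 0 := pr2_beta hT i k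
  have hβ0' : β' ≠ 0 := pr2_beta hT i' k
  set A : ℝ := ori (cp (T.w i)) (cps (T.b k) s) (cp (T.w i')) with hA
  set A' : ℝ := ori (cp (T.w i)) (cps (T.b k) t) (cp (T.w i')) with hA'
  have hAA : (0 < A ∧ 0 < A') ∨ (A < 0 ∧ A' < 0) := by
    rcases hT.ow _ i i' hN hii with h | h
    · exact Or.inl ⟨ori_bw_pos h a1 a3, ori_bw_pos h a2 a4⟩
    · exact Or.inr ⟨ori_bw_neg h a1 a3, ori_bw_neg h a2 a4⟩
  have e1 : pnt T m (Sum.inr j') = cps (T.b k) t := by
    show cps (T.b (ty p j'.val)) _ = _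
    rw [← hk]
  have o2 : ori (cp (T.w i)) (cps (T.b k) s) (cps (T.b k) t) = β * (s - t) := ori_same _ _ _ _
  have o4 : ori (cp (T.w i')) (cps (T.b k) t) (cps (T.b k) s) = β' * (t - s) := ori_same _ _ _ _
  have o3 : ori (cp (T.w i')) (cps (T.b k) t) (cp (T.w i)) = - A' := ori_rev _ _ _
  have hS' : ¬ Sep (cp (T.w i)) (cps (T.b k) s) (cp (T.w i')) (cps (T.b k) t) := by
    rw [← e1]
    exact hS
  unfold Pool.Agent.H55.BP.Sep at hS'
  rw [o2, o3, o4, ← hA] at hS'
  push Not at hS'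
  obtain ⟨c1, c2, c3, c4⟩ := hS'
  have hres : (0 < β ∧ 0 < β' ∧ 0 < A) ∨ (β < 0 ∧ β' < 0 ∧ A < 0) := by
    rcases hAA with ⟨h1, h2⟩ | ⟨h1, h2⟩
    · left
      refine ⟨?_, ?_, h1⟩
      · have h3 := c1 h1
        rcases lt_or_gt_of_ne hβ0 with h4 | h4
        · exfalso
          have : 0 < β * (s - t) := mul_pos_of_neg_of_neg h4 (by linarith)
          linarith
        · exact h4
      · have h3 := c4 (by linarith)
        rcases lt_or_gt_of_ne hβ0' with h4 | h4
        · exfalso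
          have : β' * (t - s) < 0 := mul_neg_of_neg_of_pos h4 (by linarith)
          linarith
        · exact h4
    · right
      refine ⟨?_, ?_, h1⟩
      · have h3 := c2 h1
        rcases lt_or_gt_of_ne hβ0 with h4 | h4
        · exact h4
        · exfalso
          have : β * (s - t) < 0 := mul_neg_of_pos_of_neg h4 (by linarith)
          linarith
      · have h3 := c3 (by linarith)
        rcases lt_or_gt_of_ne hβ0' with h4 | h4
        · exact h4
        · exfalso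
          have : 0 < β' * (t - s) := mul_pos h4 (by linarith)
          linarith
  exact hres

end template

theorem pr2_side {n p : ℕ} {T : Tmpl n p} {i i' : Fin n} {k : Fin p}
    (h : (0 < ((T.b k).2 : ℝ) - (T.w i).2 ∧ 0 < ((T.b k).2 : ℝ) - (T.w i').2) ∨
      (((T.b k).2 : ℝ) - (T.w i).2 < 0 ∧ ((T.b k).2 : ℝ) - (T.w i').2 < 0)) :
    ((T.w i).2 < (T.b k).2 ↔ (T.w i').2 < (T.b k).2) := by
  have e1 : (T.w i).2 < (T.b k).2 ↔ 0 < ((T.b k).2 : ℝ) - (T.w i).2 := by
    rw [sub_pos]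
    exact_mod_cast Iff.rfl
  have e2 : (T.w i').2 < (T.b k).2 ↔ 0 < ((T.b k).2 : ℝ) - (T.w i').2 := by
    rw [sub_pos]
    exact_mod_cast Iff.rfl
  rw [e1, e2]
  rcases h with ⟨h1, h2⟩ | ⟨h1, h2⟩
  · exact ⟨fun _ => h2, fun _ => h1⟩
  · exact ⟨fun h => absurd h (not_lt.2 h1.le), fun h => absurd h (not_lt.2 h2.le)⟩

/-- the set counted by `ctb` -/
def pr2_F {n p : ℕ} (T : Tmpl n p) (k l : Fin p) : Finset (Fin n × Fin n) :=
  if k = l then
    (univ : Finset (Fin n × Fin n)).filter fun x => x.1 < x.2 ∧ T.N k x.1 = true ∧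
      T.N k x.2 = true ∧ ((T.w x.1).2 < (T.b k).2 ↔ (T.w x.2).2 < (T.b k).2)
  else
    (univ : Finset (Fin n × Fin n)).filter fun x => x.1 ≠ x.2 ∧ T.N k x.1 = true ∧
      T.N l x.2 = true ∧ sepT T k l x.1 x.2 = false

theorem pr2_card {n p : ℕ} (T : Tmpl n p) (k l : Fin p) : (pr2_F T k l).card = ctb T k l := by
  unfold pr2_F ctb
  by_cases h : k = l
  · rw [if_pos h, if_pos h]
  · rw [if_neg h, if_neg h]

/-- the relation between the bad pairs and the counted objects -/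
def pr2_R {n p : ℕ} [NeZero p] (T : Tmpl n p) (m : ℕ) (x : Sym2 (Sym2 (Fin n ⊕ Fin m)))
    (y : (_ : Fin m × Fin m) × (Fin n × Fin n)) : Prop :=
  (ty p y.1.1.val ≠ ty p y.1.2.val ∧ x = pr y.2.1 y.1.1 y.2.2 y.1.2) ∨
  (ty p y.1.1.val = ty p y.1.2.val ∧ ∃ i i' : Fin n, x = pr i y.1.1 i' y.1.2 ∧
    (y.2 = (i, i') ∨ y.2 = (i', i)) ∧
    ((0 < ((T.b (ty p y.1.1.val)).2 : ℝ) - (T.w i).2 ∧
      0 < ((T.b (ty p y.1.1.val)).2 : ℝ) - (T.w i').2 ∧
      0 < ori (pnt T m (Sum.inl i)) (pnt T m (Sum.inr y.1.1)) (pnt T m (Sum.inl i'))) ∨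
    (((T.b (ty p y.1.1.val)).2 : ℝ) - (T.w i).2 < 0 ∧
      ((T.b (ty p y.1.1.val)).2 : ℝ) - (T.w i').2 < 0 ∧
      ori (pnt T m (Sum.inl i)) (pnt T m (Sum.inr y.1.1)) (pnt T m (Sum.inl i')) < 0)))

theorem pr2_unique {n p : ℕ} [NeZero p] (T : Tmpl n p) (m : ℕ)
    {x x' : Sym2 (Sym2 (Fin n ⊕ Fin m))} {y : (_ : Fin m × Fin m) × (Fin n × Fin n)}
    (h : pr2_R T m x y) (h' : pr2_R T m x' y) : x = x' := by
  rcases h with ⟨h1, h2⟩ | ⟨h1, i, i', hx, hy, hs⟩
  · rcases h' with ⟨_, h4⟩ | ⟨h3, _⟩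
    · rw [h2, h4]
    · exact absurd h3 h1
  · rcases h' with ⟨h3, _⟩ | ⟨_, e, e', hx', hy', hr⟩
    · exact absurd h1 h3
    · have hcase : (i = e ∧ i' = e') ∨ (i = e' ∧ i' = e) := by
        rcases hy with hy | hy <;> rcases hy' with hy' | hy' <;> rw [hy, Prod.mk.injEq] at hy'
        · exact Or.inl hy'
        · exact Or.inr hy'
        · exact Or.inr ⟨hy'.2, hy'.1⟩
        · exact Or.inl ⟨hy'.2, hy'.1⟩
      rcases hcase with ⟨rfl, rfl⟩ | ⟨rfl, rfl⟩
      · rw [hx, hx']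
      · exfalso
        rw [ori_rev (pnt T m (Sum.inl i))] at hr
        rcases hs with h1 | h1 <;> rcases hr with h2 | h2 <;> linarith [h1.1, h1.2.1, h1.2.2,
          h2.1, h2.2.1, h2.2.2]

theorem pf_PR2 (hSL : T_SL) : T_PR2 := by
  intro n p _ T hT m
  obtain ⟨D, hD⟩ := hSL (BG (T.adj m)) (pnt T m) (pr2_inj m hT) (by
    rintro u v x (⟨i, j, rfl, rfl, hA⟩ | ⟨i, j, rfl, rfl, hA⟩) h1 h2
    · exact pr2_ori m hT i j hA x h1 h2
    · rw [ori_swap]
      exact neg_ne_zero.2 (pr2_ori m hT i j hA x h2 h1))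
  refine ⟨D, hD.trans ?_⟩
  set S : Finset ((_ : Fin m × Fin m) × (Fin n × Fin n)) :=
    ((univ : Finset (Fin m × Fin m)).filter fun x => x.1 < x.2).sigma
      fun q => pr2_F T (ty p q.1.val) (ty p q.2.val) with hSdef
  have hcard : S.card = ∑ x ∈ (univ : Finset (Fin m × Fin m)).filter fun x => x.1 < x.2,
      ctb T (ty p x.1.val) (ty p x.2.val) := by
    rw [hSdef, card_sigma]
    exact sum_congr rfl fun q _ => pr2_card T _ _
  rw [← hcard]
  have key : ∀ x ∈ badPairs (BG (T.adj m)) (pnt T m), ∃ y ∈ S, pr2_R T m x y := by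
    intro x hx
    obtain ⟨i, i', j, j', h1, h2, h3, h4, hx', h6⟩ := bad_form _ _ hx
    have h3' : T.N (ty p j.val) i = true := h3
    have h4' : T.N (ty p j'.val) i' = true := h4
    by_cases hk : ty p j.val = ty p j'.val
    · have hres := pr2_main m hT h1 h2 h3' hk h6
      have hside := pr2_side (hres.imp (fun h => ⟨h.1, h.2.1⟩) (fun h => ⟨h.1, h.2.1⟩))
      have h4'' : T.N (ty p j.val) i' = true := by rw [hk]; exact h4'
      rcases lt_or_gt_of_ne h1 with hlt | hlt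
      · refine ⟨⟨(j, j'), (i, i')⟩, ?_, Or.inr ⟨hk, i, i', hx', Or.inl rfl, hres⟩⟩
        rw [hSdef, mem_sigma, mem_filter]
        refine ⟨⟨mem_univ _, h2⟩, ?_⟩
        change (i, i') ∈ pr2_F T (ty p j.val) (ty p j'.val)
        unfold pr2_F
        rw [if_pos hk, mem_filter]
        exact ⟨mem_univ _, hlt, h3', h4'', hside⟩
      · refine ⟨⟨(j, j'), (i', i)⟩, ?_, Or.inr ⟨hk, i, i', hx', Or.inr rfl, hres⟩⟩
        rw [hSdef, mem_sigma, mem_filter]
        refine ⟨⟨mem_univ _, h2⟩, ?_⟩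
        change (i', i) ∈ pr2_F T (ty p j.val) (ty p j'.val)
        unfold pr2_F
        rw [if_pos hk, mem_filter]
        exact ⟨mem_univ _, hlt, h4'', h3', hside.symm⟩
    · refine ⟨⟨(j, j'), (i, i')⟩, ?_, Or.inl ⟨hk, hx'⟩⟩
      rw [hSdef, mem_sigma, mem_filter]
      refine ⟨⟨mem_univ _, h2⟩, ?_⟩
      change (i, i') ∈ pr2_F T (ty p j.val) (ty p j'.val)
      unfold pr2_F
      rw [if_neg hk, mem_filter]
      exact ⟨mem_univ _, h1, h3', h4', pr2_diff m hT h6⟩
  rcases isEmpty_or_nonempty ((_ : Fin m × Fin m) × (Fin n × Fin n)) with hemp | hne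
  · have h0 : badPairs (BG (T.adj m)) (pnt T m) = ∅ := by
      ext x
      simp only [Set.mem_empty_iff_false, iff_false]
      intro hx
      obtain ⟨q, _, _⟩ := key x hx
      exact hemp.false q
    rw [h0, Set.ncard_empty]
    exact Nat.zero_le _
  choose! f hf1 hf2 using key
  have h1 := Set.ncard_le_ncard_of_injOn f (s := badPairs (BG (T.adj m)) (pnt T m))
    (t := (S : Set ((_ : Fin m × Fin m) × (Fin n × Fin n))))
    (fun x hx => Finset.mem_coe.2 (hf1 x hx))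
    (fun x hx y hy hxy => by
      have h2 := hf2 x hx
      rw [hxy] at h2
      exact pr2_unique T m h2 (hf2 y hy)) (Finset.finite_toSet _)
  rwa [Set.ncard_coe_finset] at h1

end Pool.Agent.H20.BPQ
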